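import Mathlib

/-!
Adding a pendant vertex to a graph; existence of trees with all degrees one or three.
-/

namespace Pool.Agent.X55.Pend

open SimpleGraph

/-- Add a pendant vertex `none` attached to `r`. -/
def pend {V : Type} (G : SimpleGraph V) (r : V) : SimpleGraph (Option V) where
  Adj
    | some u, some v => G.Adj u v
    | none, some v => v = r
    | some u, none => u = r
    | none, none => False
  symm := ⟨by
    rintro (_ | u) (_ | v) h
    · exact h
    · exact h
    · exact h
    · exact G.adj_symm h⟩
  loopless := ⟨by
    rintro (_ | u) h
    · exact h
    · exact G.loopless.irrefl u h⟩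

variable {V : Type} {G : SimpleGraph V} {r : V}

/-- The inclusion. -/
def inc (G : SimpleGraph V) (r : V) : G →g pend G r := ⟨some, fun h => h⟩

theorem pend_connected (hG : G.Connected) : (pend G r).Connected := by
  have h0 : (pend G r).Adj none (some r) := rfl
  have h1 : ∀ u v : V, (pend G r).Reachable (some u) (some v) := fun u v =>
    (hG.preconnected u v).map (inc G r)
  refine ⟨?_⟩
  rintro (_ | u) (_ | v)
  · exact Reachable.refl _
  · exact h0.reachable.trans (h1 r v)
  · exact (h1 u r).trans h0.reachable.symm
  · exact h1 u v

theorem pend_isTree [Finite V] (hG : G.IsTree) : (pend G r).IsTree := by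
  have := Fintype.ofFinite V
  rw [isTree_iff_connected_and_card] at hG ⊢
  have hconn := pend_connected (r := r) hG.1
  refine ⟨hconn, le_antisymm ?_ ?_⟩
  · have hsub : (pend G r).edgeSet ⊆ (Sym2.map some '' G.edgeSet) ∪ {s(none, some r)} := by
      intro e he
      induction e using Sym2.ind with
      | _ a b =>
        rw [mem_edgeSet] at he
        rcases a with _ | a <;> rcases b with _ | b
        · exact absurd he (by simp [pend])
        · right
          have : b = r := he
          rw [this]; rfl
        · right
          have : a = r := he
          rw [this]; exact Sym2.eq_swap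
        · left
          exact ⟨s(a, b), he, by simp⟩
    have h1 : (pend G r).edgeSet.ncard ≤ G.edgeSet.ncard + 1 := by
      refine (Set.ncard_le_ncard hsub (Set.toFinite _)).trans ?_
      refine (Set.ncard_union_le _ _).trans ?_
      rw [Set.ncard_singleton]
      exact Nat.add_le_add_right (Set.ncard_image_le (Set.toFinite _)) 1
    have h2 : Nat.card (pend G r).edgeSet = (pend G r).edgeSet.ncard := rfl
    have h3 : Nat.card G.edgeSet = G.edgeSet.ncard := rfl
    have h4 : Nat.card (Option V) = Nat.card V + 1 := Finite.card_option
    omega
  · exact hconn.card_vert_le_card_edgeSet_add_one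

theorem pend_deg_none : ((pend G r).neighborSet none).ncard = 1 := by
  have : (pend G r).neighborSet none = {some r} := by
    ext x
    rcases x with _ | x
    · simp [pend]
    · simp only [mem_neighborSet, Set.mem_singleton_iff, Option.some.injEq]
      exact Iff.rfl
  rw [this, Set.ncard_singleton]

theorem pend_deg_root [Finite V] :
    ((pend G r).neighborSet (some r)).ncard = (G.neighborSet r).ncard + 1 := by
  have h : (pend G r).neighborSet (some r) = insert none (some '' G.neighborSet r) := by
    ext x
    rcases x with _ | x
    · simp only [mem_neighborSet, Set.mem_insert_iff, true_or, iff_true]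
      exact rfl
    · simp only [mem_neighborSet, Set.mem_insert_iff, reduceCtorEq, false_or]
      constructor
      · intro h; exact ⟨x, h, rfl⟩
      · rintro ⟨y, hy, hyx⟩
        rw [Option.some.injEq] at hyx
        rw [← hyx]
        exact hy
  rw [h, Set.ncard_insert_of_notMem (by simp) (Set.toFinite _),
    Set.ncard_image_of_injective _ (Option.some_injective V)]

theorem pend_deg_other {v : V} (hv : v ≠ r) :
    ((pend G r).neighborSet (some v)).ncard = (G.neighborSet v).ncard := by
  have h : (pend G r).neighborSet (some v) = some '' G.neighborSet v := by
    ext x
    rcases x with _ | x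
    · simp only [mem_neighborSet, Set.mem_image, reduceCtorEq, and_false, exists_false, iff_false]
      exact hv
    · simp only [mem_neighborSet]
      constructor
      · intro h; exact ⟨x, h, rfl⟩
      · rintro ⟨y, hy, hyx⟩
        rw [Option.some.injEq] at hyx
        rw [← hyx]
        exact hy
  rw [h, Set.ncard_image_of_injective _ (Option.some_injective V)]

/-- For every `n ≥ 2` there is a finite tree with all degrees `1` or `3` and `n` leaves. -/
theorem exists_cubic (n : ℕ) (hn : 2 ≤ n) : ∃ (V : Type) (_ : Finite V) (G : SimpleGraph V),
    G.IsTree ∧ (∀ v, (G.neighborSet v).ncard = 1 ∨ (G.neighborSet v).ncard = 3) ∧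
      {v | (G.neighborSet v).ncard = 1}.ncard = n := by
  induction n, hn using Nat.le_induction with
  | base =>
    have h0 : ((⊥ : SimpleGraph Unit).neighborSet ()).ncard = 0 := by
      rw [Set.ncard_eq_zero (Set.toFinite _)]
      ext x
      simp
    have hd : ∀ v, ((pend (⊥ : SimpleGraph Unit) ()).neighborSet v).ncard = 1 := by
      rintro (_ | v)
      · exact pend_deg_none
      · have := pend_deg_root (G := (⊥ : SimpleGraph Unit)) (r := ())
        rw [h0] at this
        exact this
    refine ⟨Option Unit, inferInstance, pend ⊥ (), pend_isTree IsTree.of_subsingleton,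
      fun v => Or.inl (hd v), ?_⟩
    have : {v | ((pend (⊥ : SimpleGraph Unit) ()).neighborSet v).ncard = 1} = Set.univ := by
      ext v
      exact iff_of_true (hd v) trivial
    rw [this, Set.ncard_univ]
    simp
  | succ n hn ih =>
    obtain ⟨V, _, G, hT, hdeg, hleaf⟩ := ih
    obtain ⟨r, hr⟩ : {v | (G.neighborSet v).ncard = 1}.Nonempty := by
      apply Set.nonempty_of_ncard_ne_zero
      omega
    have hr' : (G.neighborSet r).ncard = 1 := hr
    let G1 := pend G r
    let G2 := pend G1 (some r)
    have e0 : (G2.neighborSet none).ncard = 1 := pend_deg_none
    have e1 : (G2.neighborSet (some none)).ncard = 1 := by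
      have := pend_deg_other (G := G1) (r := some r) (v := none) (by simp)
      rw [show (G2.neighborSet (some none)).ncard = _ from this]
      exact pend_deg_none
    have e2 : (G2.neighborSet (some (some r))).ncard = 3 := by
      have h1 := pend_deg_root (G := G1) (r := some r)
      have h2 := pend_deg_root (G := G) (r := r)
      rw [show (G2.neighborSet (some (some r))).ncard = _ from h1,
        show (G1.neighborSet (some r)).ncard = _ from h2, hr']
    have e3 : ∀ v, v ≠ r → (G2.neighborSet (some (some v))).ncard = (G.neighborSet v).ncard := by
      intro v hv
      have h1 := pend_deg_other (G := G1) (r := some r) (v := some v) (by simpa using hv)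
      have h2 := pend_deg_other (G := G) (r := r) hv
      rw [show (G2.neighborSet (some (some v))).ncard = _ from h1]
      exact h2
    refine ⟨Option (Option V), inferInstance, G2, pend_isTree (pend_isTree hT), ?_, ?_⟩
    · rintro (_ | _ | v)
      · exact Or.inl e0
      · exact Or.inl e1
      · by_cases hv : v = r
        · subst hv; exact Or.inr e2
        · rw [e3 v hv]; exact hdeg v
    · have h : {v | (G2.neighborSet v).ncard = 1} = insert none (insert (some none)
          ((fun v => some (some v)) '' ({v | (G.neighborSet v).ncard = 1} \ {r}))) := by
        ext x
        simp only [Set.mem_ofPred_eq, Set.mem_insert_iff, Set.mem_image, Set.mem_sdiff,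
          Set.mem_singleton_iff]
        rcases x with _ | _ | v
        · simp [e0]
        · simp [e1]
        · by_cases hv : v = r
          · subst hv
            simp [e2]
          · simp [e3 v hv, hv]
      have hinj : Function.Injective (fun v : V => (some (some v) : Option (Option V))) := by
        intro a b hab
        simpa using hab
      rw [h, Set.ncard_insert_of_notMem (by simp) (Set.toFinite _),
        Set.ncard_insert_of_notMem (by simp) (Set.toFinite _),
        Set.ncard_image_of_injective _ hinj, Set.ncard_sdiff_singleton_of_mem hr, hleaf]
      omega

end Pool.Agent.X55.Pend
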